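import Pool.Agent.H70.PT.Targets

/-!
Row ENT of the board bwp_modules.
-/

set_option autoImplicit false

open Pool.Agent.H70.PT

namespace Pool.Agent.H34.BW

theorem H_eq (b : ℝ) : H b = Real.binEntropy b / Real.log 2 := by
  unfold H Real.binEntropy Real.logb
  rw [Real.log_inv, Real.log_inv]
  ring

theorem H_half : H (1 / 2) = 1 := by
  rw [H_eq, one_div, Real.binEntropy_two_inv]
  exact div_self (Real.log_pos (by norm_num)).ne'

theorem H_tq : H (3 / 4) = 2 - 3 / 4 * Real.logb 2 3 := by
  have h2 : Real.logb 2 2 = 1 := Real.logb_self_eq_one (by norm_num)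
  have h4 : Real.logb 2 4 = 2 := by
    rw [show (4 : ℝ) = 2 ^ 2 by norm_num, Real.logb_pow, h2]; norm_num
  have h34 : Real.logb 2 (3 / 4) = Real.logb 2 3 - 2 := by
    rw [Real.logb_div (by norm_num) (by norm_num), h4]
  have h14 : Real.logb 2 (1 - 3 / 4) = -2 := by
    rw [show (1 - 3 / 4 : ℝ) = 4⁻¹ by norm_num, Real.logb_inv, h4]
  unfold H
  rw [h34, h14]
  ring

theorem H_cont : Continuous H := by
  have : H = fun b => Real.binEntropy b / Real.log 2 := funext H_eq
  rw [this]
  exact Real.binEntropy_continuous.div_const _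

theorem mu_cont : Continuous mu := by
  unfold mu
  exact (H_cont.add (continuous_id.mul continuous_const)).sub continuous_const

theorem mu_deriv (b : ℝ) (h0 : b ≠ 0) (h1 : b ≠ 1) :
    HasDerivAt mu ((Real.log (1 - b) - Real.log b) / Real.log 2 + Real.logb 2 3) b := by
  have h := (Real.hasDerivAt_binEntropy h0 h1).div_const (Real.log 2)
  have h2 : HasDerivAt (fun b : ℝ => b * Real.logb 2 3) (1 * Real.logb 2 3) b :=
    (hasDerivAt_id b).mul_const _
  have h3 := (h.add h2).sub_const 2
  rw [one_mul] at h3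
  have h4 : mu = fun b => Real.binEntropy b / Real.log 2 + b * Real.logb 2 3 - 2 := by
    funext b
    unfold mu
    rw [H_eq]
  rw [h4]
  exact h3

theorem pf_ENT : T_ENT := by
  have hl2 : 0 < Real.log 2 := Real.log_pos (by norm_num)
  refine ⟨?_, ?_, ?_, ?_, ?_, mu_cont, ?_, ?_⟩
  · unfold ka; rw [H_half]; ring
  · unfold ka; rw [H_tq]; ring
  · unfold mu; rw [H_tq]; ring
  · unfold mu; rw [H_half]; ring
  · exact continuous_const.sub H_cont
  · intro x hx y hy hxy
    unfold ka
    rw [H_eq, H_eq]
    have h := Real.binEntropy_strictAntiOn (a := x) (b := y)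
      ⟨by rw [← one_div]; exact hx.1, by linarith [hx.2]⟩
      ⟨by rw [← one_div]; exact hy.1, by linarith [hy.2]⟩ hxy
    have h2 := div_lt_div_of_pos_right h hl2
    show 1 - _ < 1 - _
    linarith
  · refine strictMonoOn_of_deriv_pos (convex_Icc _ _) mu_cont.continuousOn ?_
    intro b hb
    rw [interior_Icc] at hb
    have hb0 : 0 < b := by linarith [hb.1]
    have hb1 : b < 1 := by linarith [hb.2]
    rw [(mu_deriv b hb0.ne' hb1.ne).deriv]
    unfold Real.logb
    rw [← add_div]
    apply div_pos _ hl2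
    have h3 : Real.log b < Real.log (1 - b) + Real.log 3 := by
      rw [← Real.log_mul (by linarith) (by norm_num)]
      exact Real.log_lt_log hb0 (by linarith [hb.2])
    linarith

end Pool.Agent.H34.BW
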