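import Pool.Agent.H70.PT.Targets
import Pool.Agent.H43.TG.RDB
import Pool.Agent.H43.TG.RDW

/-!
Row LEN of the board bwp_modules.
-/

set_option autoImplicit false

open Pool.Agent.H70.PT

namespace Pool.Agent.H34.BW

open Pool.Agent.H68.TG (emb tape pass st tr hf t3 dd)

theorem bw_succ {r : ℕ} (X Y : Fin (r + 1) → ℕ) :
    bw X Y = (List.replicate (X 0) false ++ List.replicate (Y 0) true) ++
      bw (fun i => X i.succ) (fun i => Y i.succ) := by
  unfold bw
  rw [List.ofFn_succ, List.flatMap_cons]

theorem wd_succ {r : ℕ} (X Y : Fin (r + 1) → ℕ) :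
    wd X Y = (List.replicate (X 0) 0 ++ dd (Y 0)) ++
      wd (fun i => X i.succ) (fun i => Y i.succ) := by
  unfold wd Pool.Agent.H75.RW.prodb
  rw [List.ofFn_succ, List.flatMap_cons]

theorem emb_false (x : ℕ) : emb (List.replicate x false) = List.replicate x 0 := by
  induction x with
  | zero => rfl
  | succ x ih => rw [List.replicate_succ, List.replicate_succ, emb, ih]

theorem emb_true (y : ℕ) : emb (List.replicate y true) = dd y := by
  induction y with
  | zero => rfl
  | succ y ih => rw [List.replicate_succ, emb, ih, Pool.Agent.H43.TG.dd_succ]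

theorem dd_len (y : ℕ) : (dd y).length = 2 * y := by
  induction y with
  | zero => rfl
  | succ y ih => rw [Pool.Agent.H43.TG.dd_succ, List.length_cons, List.length_cons, ih]; ring

theorem wd_eq (r : ℕ) : ∀ X Y : Fin r → ℕ, wd X Y = emb (bw X Y) := by
  induction r with
  | zero => intro X Y; simp [wd, bw, Pool.Agent.H75.RW.prodb, emb]
  | succ r ih =>
    intro X Y
    rw [bw_succ, wd_succ, Pool.Agent.H43.TG.emb_append, Pool.Agent.H43.TG.emb_append, emb_false,
      emb_true, ih]

theorem emb_len (r : ℕ) : ∀ X Y : Fin r → ℕ, (emb (bw X Y)).length = ∑ i, (X i + 2 * Y i) := by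
  induction r with
  | zero => intro X Y; simp [bw, emb]
  | succ r ih =>
    intro X Y
    rw [bw_succ, Pool.Agent.H43.TG.emb_append, Pool.Agent.H43.TG.emb_append, emb_false,
      emb_true, List.length_append, List.length_append, ih, Fin.sum_univ_succ, dd_len,
      List.length_replicate]

theorem pst_zero {r : ℕ} (a : Bool) (X : Fin r → ℕ) : pst a X 0 = a := by
  simp [pst]

theorem pst_succ {r : ℕ} (a : Bool) (X : Fin (r + 1) → ℕ) (i : ℕ) :
    pst a X (i + 1) = pst (xor a (X 0).bodd) (fun j => X j.succ) i := by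
  unfold pst
  rw [Fin.sum_univ_succ]
  simp only [Fin.val_zero, Nat.zero_lt_succ, if_true, Fin.val_succ, Nat.add_lt_add_iff_right,
    Nat.bodd_add, Bool.xor_assoc]

theorem tr_len (r : ℕ) : ∀ (a : Bool) (X Y : Fin r → ℕ),
    (emb (tr a (bw X Y))).length =
      ∑ i : Fin r, (2 * hf (pst a X i) (X i) + t3 (pst a X (i + 1)) (Y i)) ∧
    st a (bw X Y) = pst a X r := by
  induction r with
  | zero => intro a X Y; simp [bw, emb, tr, st, pst]
  | succ r ih =>
    intro a X Y
    have h1 := Pool.Agent.H43.TG.tr_append (List.replicate (X 0) false ++ List.replicate (Y 0) true)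
      a (bw (fun i => X i.succ) (fun i => Y i.succ))
    have h2 := Pool.Agent.H43.TG.tr_append (List.replicate (X 0) false) a
      (List.replicate (Y 0) true)
    have h3 := Pool.Agent.H43.TG.tr_false (X 0) a
    have h4 := Pool.Agent.H43.TG.tr_true (Y 0) (xor a (X 0).bodd)
    rw [h3.2, h4.2, h4.1, h3.1] at h2
    rw [h2.1, h2.2] at h1
    have h5 := ih (xor a (X 0).bodd) (fun i => X i.succ) (fun i => Y i.succ)
    rw [bw_succ, h1.1, h1.2]
    refine ⟨?_, ?_⟩
    · rw [Pool.Agent.H43.TG.emb_append, Pool.Agent.H43.TG.emb_append, emb_false,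
        emb_true, List.length_append, List.length_append, h5.1, Fin.sum_univ_succ, dd_len,
        List.length_replicate]
      congr 1
      · rw [Fin.val_zero, pst_zero, pst_succ, pst_zero]
      · apply Finset.sum_congr rfl
        intro i _
        rw [Fin.val_succ, pst_succ, pst_succ]
    · rw [h5.2, pst_succ]

theorem pf_LEN : T_LEN := by
  intro r a X Y
  refine ⟨?_, ?_, ?_⟩
  · rw [wd_eq]; simp [tape]
  · unfold tape
    rw [List.length_drop, emb_len]
    rfl
  · unfold tape Pool.Agent.H68.TG.pass
    rw [List.length_drop, (tr_len r a X Y).1, (tr_len r a X Y).2]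

end Pool.Agent.H34.BW
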