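import Pool.Agent.H70.PT.Targets

/-!
Row SIZ of the board bwp_modules.
-/

set_option autoImplicit false

open Pool.Agent.H70.PT

namespace Pool.Agent.H34.BW

theorem hf_bd (s : Bool) (x : ℕ) : (x : ℝ) - 1 ≤ 2 * (Pool.Agent.H68.TG.hf s x : ℝ) ∧
    2 * (Pool.Agent.H68.TG.hf s x : ℝ) ≤ x + 1 := by
  have h : x ≤ 2 * Pool.Agent.H68.TG.hf s x + 1 ∧ 2 * Pool.Agent.H68.TG.hf s x ≤ x + 1 := by
    cases s <;> simp only [Pool.Agent.H68.TG.hf] <;> simp <;> omega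
  have h1 : (x : ℝ) ≤ 2 * (Pool.Agent.H68.TG.hf s x : ℝ) + 1 := by exact_mod_cast h.1
  have h2 : 2 * (Pool.Agent.H68.TG.hf s x : ℝ) ≤ x + 1 := by exact_mod_cast h.2
  exact ⟨by linarith, h2⟩

theorem t3_eq (s : Bool) (x : ℕ) : (Pool.Agent.H68.TG.t3 s x : ℝ) = 3 ^ (cond s 1 0) * x := by
  cases s <;> simp [Pool.Agent.H68.TG.t3]

theorem arith_up (P c : ℕ) (w h z x : ℝ) (hw : 0 < w) (h1 : w * z ≤ 3 ^ P * (x + w))
    (h2 : 2 * h ≤ z + 1) : w * 2 * (3 ^ c * h) ≤ 3 ^ (P + c) * (x + w * 2) := by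
  have hP : (1 : ℝ) ≤ 3 ^ P := one_le_pow₀ (by norm_num)
  have hc : (0 : ℝ) < 3 ^ c := by positivity
  have h3 : w * (2 * h) ≤ 3 ^ P * (x + w * 2) := by
    have h4 : w * (2 * h) ≤ w * (z + 1) := mul_le_mul_of_nonneg_left h2 hw.le
    have h5 : w ≤ 3 ^ P * w := le_mul_of_one_le_left hw.le hP
    nlinarith
  calc w * 2 * (3 ^ c * h) = 3 ^ c * (w * (2 * h)) := by ring
    _ ≤ 3 ^ c * (3 ^ P * (x + w * 2)) := mul_le_mul_of_nonneg_left h3 hc.le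
    _ = _ := by rw [pow_add]; ring

theorem arith_lo (P c : ℕ) (w h z x : ℝ) (hw : 0 < w) (h1 : 3 ^ P * (x - w) ≤ w * z)
    (h2 : z - 1 ≤ 2 * h) : 3 ^ (P + c) * (x - w * 2) ≤ w * 2 * (3 ^ c * h) := by
  have hP : (1 : ℝ) ≤ 3 ^ P := one_le_pow₀ (by norm_num)
  have hc : (0 : ℝ) < 3 ^ c := by positivity
  have h3 : 3 ^ P * (x - w * 2) ≤ w * (2 * h) := by
    have h4 : w * (z - 1) ≤ w * (2 * h) := mul_le_mul_of_nonneg_left h2 hw.le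
    have h5 : w ≤ 3 ^ P * w := le_mul_of_one_le_left hw.le hP
    nlinarith
  calc 3 ^ (P + c) * (x - w * 2) = 3 ^ c * (3 ^ P * (x - w * 2)) := by rw [pow_add]; ring
    _ ≤ 3 ^ c * (w * (2 * h)) := mul_le_mul_of_nonneg_left h3 hc.le
    _ = _ := by ring

theorem arith_up2 (P c : ℕ) (w h z x : ℝ) (hw : 0 < w) (h1 : w * z ≤ 3 ^ P * (x + w))
    (h2 : 2 * h ≤ 3 ^ c * z + 1) : w * 2 * h ≤ 3 ^ (P + c) * (x + w * 2) := by
  have hPc : (1 : ℝ) ≤ 3 ^ (P + c) := one_le_pow₀ (by norm_num)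
  have hc : (0 : ℝ) < 3 ^ c := by positivity
  have h3 : w * (2 * h) ≤ w * (3 ^ c * z + 1) := mul_le_mul_of_nonneg_left h2 hw.le
  have h4 : 3 ^ c * (w * z) ≤ 3 ^ c * (3 ^ P * (x + w)) := mul_le_mul_of_nonneg_left h1 hc.le
  have h5 : w ≤ 3 ^ (P + c) * w := le_mul_of_one_le_left hw.le hPc
  have h6 : (3 : ℝ) ^ (P + c) = 3 ^ c * 3 ^ P := by rw [pow_add]; ring
  calc w * 2 * h = w * (2 * h) := by ring
    _ ≤ w * (3 ^ c * z + 1) := h3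
    _ = 3 ^ c * (w * z) + w := by ring
    _ ≤ 3 ^ c * (3 ^ P * (x + w)) + 3 ^ (P + c) * w := add_le_add h4 h5
    _ = _ := by rw [h6]; ring

theorem arith_lo2 (P c : ℕ) (w h z x : ℝ) (hw : 0 < w) (h1 : 3 ^ P * (x - w) ≤ w * z)
    (h2 : 3 ^ c * z - 1 ≤ 2 * h) : 3 ^ (P + c) * (x - w * 2) ≤ w * 2 * h := by
  have hPc : (1 : ℝ) ≤ 3 ^ (P + c) := one_le_pow₀ (by norm_num)
  have hc : (0 : ℝ) < 3 ^ c := by positivity
  have h3 : w * (3 ^ c * z - 1) ≤ w * (2 * h) := mul_le_mul_of_nonneg_left h2 hw.le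
  have h4 : 3 ^ c * (3 ^ P * (x - w)) ≤ 3 ^ c * (w * z) := mul_le_mul_of_nonneg_left h1 hc.le
  have h5 : w ≤ 3 ^ (P + c) * w := le_mul_of_one_le_left hw.le hPc
  have h6 : (3 : ℝ) ^ (P + c) = 3 ^ c * 3 ^ P := by rw [pow_add]; ring
  calc 3 ^ (P + c) * (x - w * 2) = 3 ^ c * (3 ^ P * (x - w)) - 3 ^ (P + c) * w := by rw [h6]; ring
    _ ≤ 3 ^ c * (w * z) - w := sub_le_sub h4 h5
    _ = w * (3 ^ c * z - 1) := by ring
    _ ≤ w * (2 * h) := h3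
    _ = _ := by ring

theorem pf_SIZ : T_SIZ := by
  intro r n q i
  induction n with
  | zero => simp [PP, QQ]
  | succ n ih =>
    obtain ⟨⟨h1, h2⟩, h3, h4⟩ := ih
    have hw : (0 : ℝ) < 2 ^ n := by positivity
    have hP : PP (n + 1) q i = PP n q i + cP (nx^[n] q) i := Finset.sum_range_succ _ _
    have hQ : QQ (n + 1) q i = QQ n q i + cQ (nx^[n] q) i := Finset.sum_range_succ _ _
    rw [Function.iterate_succ_apply', hP, hQ, pow_succ]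
    have hX : ((nx (nx^[n] q)).2.1 i : ℝ) = 3 ^ (cP (nx^[n] q) i) *
        (Pool.Agent.H68.TG.hf (pst (nx^[n] q).1 (nx^[n] q).2.1 i) ((nx^[n] q).2.1 i) : ℝ) :=
      t3_eq _ _
    have hY := hf_bd (sb (nx^[n] q) i)
      (Pool.Agent.H68.TG.t3 (pst (nx^[n] q).1 (nx^[n] q).2.1 (i + 1)) ((nx^[n] q).2.2 i))
    rw [t3_eq] at hY
    have hx := hf_bd (pst (nx^[n] q).1 (nx^[n] q).2.1 i) ((nx^[n] q).2.1 i)
    refine ⟨⟨?_, ?_⟩, ?_, ?_⟩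
    · rw [hX]; exact arith_lo _ _ _ _ _ _ hw h1 hx.1
    · rw [hX]; exact arith_up _ _ _ _ _ _ hw h2 hx.2
    · exact arith_lo2 _ _ _ _ _ _ hw h3 hY.1
    · exact arith_up2 _ _ _ _ _ _ hw h4 hY.2

end Pool.Agent.H34.BW
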